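import Pool.Agent.helper52.WP.SpecN

set_option autoImplicit false

open Complex Metric Set Filter Topology MeasureTheory
open V3S (UF)
open WP

noncomputable section

namespace WPN

/-- Splitting off one term of a double sum. -/
theorem NZB_split (k : ℕ) (hk : 1 ≤ k) (i : Fin 3) (T : Fin 3 → ℕ → ℂ) :
    ∑ l : Fin 3, ∑ j ∈ Finset.range k, T l j =
      T i 0 + ∑ l : Fin 3, ∑ j ∈ Finset.range k, (if l = i ∧ j = 0 then 0 else T l j) := by
  have h1 : ∀ l : Fin 3, ∀ j ∈ Finset.range k, T l j =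
      (if l = i ∧ j = 0 then T l j else 0) + (if l = i ∧ j = 0 then 0 else T l j) := by
    intro l j _
    split_ifs <;> simp
  have h2 : ∑ l : Fin 3, ∑ j ∈ Finset.range k, (if l = i ∧ j = 0 then T l j else 0) = T i 0 := by
    rw [Finset.sum_eq_single i]
    · rw [Finset.sum_eq_single 0]
      · simp
      · intro j _ hj
        simp [hj]
      · intro h0
        exact absurd (Finset.mem_range.2 (by omega)) h0
    · intro l _ hl
      apply Finset.sum_eq_zero
      intro j _
      simp [hl]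
    · intro h0
      exact absurd (Finset.mem_univ i) h0
  calc ∑ l : Fin 3, ∑ j ∈ Finset.range k, T l j
      = ∑ l : Fin 3, ∑ j ∈ Finset.range k, ((if l = i ∧ j = 0 then T l j else 0) +
          (if l = i ∧ j = 0 then 0 else T l j)) := by
        apply Finset.sum_congr rfl
        intro l _
        apply Finset.sum_congr rfl
        intro j hj
        exact h1 l j hj
    _ = _ := by
        simp only [Finset.sum_add_distrib]
        rw [h2]

/-- The estimate of one datum. -/
theorem NZB_est (hCB1 : WPC.CB1_stmt) (hCB2 : WPC.CB2_stmt) (n : ℕ) (C A : ℝ) (hC : 1 ≤ C) (D : Dat)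
    (hD : D.Good n C A) (i : Fin 3) (hi : ‖D.γ i‖ = 1) (q : ℂ) (hq : ‖q‖ ≤ 1 / (4 * C)) (t : ℝ) (ht : 0 < t)
    (ht1 : t < 1 / (16 * C)) (hai : ‖D.a i - q‖ < t / 2) (e : ℝ) (hB : ∀ x ∈ sphere q t, ‖D.B x‖ ≤ e) :
    D.s ≤ 2 * t * e := by
  obtain ⟨c₀, hc₀, K, hK, hall⟩ := hCB2 C hC
  obtain ⟨-, -, -, -, -, -, -, h8, -⟩ := hall n A D hD
  obtain ⟨-, -, -, -, hF0, -, -, -, -, -, -, hp0, -, -, -, -⟩ := hCB1 D hD.rho
  have hC0 : 0 < C := by linarith
  have hk := hD.hk
  -- the points outside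
  have hout : ∀ (l : Fin 3) (j : ℕ), j < D.k → ¬ (l = i ∧ j = 0) → D.p l j ∉ closedBall q t := by
    intro l j hj hlj hmem
    rw [mem_closedBall, dist_eq_norm] at hmem
    rcases Nat.eq_zero_or_pos j with hj0 | hj0
    · subst hj0
      have hl : i ≠ l := fun h => hlj ⟨h.symm, rfl⟩
      have h1 := hD.sep i l hl
      rw [hp0 l] at hmem
      have h2 : ‖D.a i - D.a l‖ ≤ ‖D.a i - q‖ + ‖D.a l - q‖ := by
        have : D.a i - D.a l = (D.a i - q) - (D.a l - q) := by ring
        rw [this]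
        exact norm_sub_le _ _
      have h3 : 1 / (4 * C) = 4 * (1 / (16 * C)) := by
        field_simp
        norm_num
      have h4 : 0 < 1 / (16 * C) := by positivity
      linarith
    · have h1 : D.a l ∈ ball (0 : ℂ) (1 / C) := by
        rw [mem_ball, dist_zero_right]
        refine lt_of_le_of_lt (hD.pt l) ?_
        apply one_div_lt_one_div_of_lt hC0
        linarith
      have h2 := h8 j hj0 hj (D.a l) h1
      have h3 : ‖D.p l j‖ ≤ ‖D.p l j - q‖ + ‖q‖ := by
        have : D.p l j = (D.p l j - q) + q := by ring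
        calc ‖D.p l j‖ = ‖(D.p l j - q) + q‖ := by rw [← this]
          _ ≤ _ := norm_add_le _ _
      have h4 : 1 / C = 4 * (1 / (4 * C)) := by
        field_simp
      have h5 : 1 / (4 * C) = 4 * (1 / (16 * C)) := by
        field_simp
        norm_num
      have h6 : 0 < 1 / (16 * C) := by positivity
      have h7 : ‖D.p l j‖ = ‖D.F j (D.a l)‖ := rfl
      linarith
  set R : ℂ → ℂ := fun x => ∑ l : Fin 3, ∑ j ∈ Finset.range D.k,
    (if l = i ∧ j = 0 then 0 else D.g l j / (x - D.p l j)) with hR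
  set Q : ℂ → ℂ := fun x => (D.s : ℂ) * (D.γ i + (x - D.a i) * R x) with hQ
  have hgi : D.g i 0 = D.γ i := by
    have h1 : D.F 0 = fun x => x := by
      funext x
      exact hF0 x
    show D.γ i / deriv (D.F 0) (D.a i) = D.γ i
    rw [h1]
    simp
  have hB0 : ∀ x, D.B0 x = D.γ i / (x - D.a i) + R x := by
    intro x
    have h1 := NZB_split D.k hk i (fun l j => D.g l j / (x - D.p l j))
    show ∑ l : Fin 3, ∑ j ∈ Finset.range D.k, D.g l j / (x - D.p l j) = _
    rw [h1]
    show D.g i 0 / (x - D.p i 0) + R x = _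
    rw [hgi, hp0 i]
  have haiB : D.a i ∈ ball q t := by
    rw [mem_ball, dist_eq_norm]
    linarith
  have hQB : ∀ x, x ≠ D.a i → Q x = (x - D.a i) * D.B x := by
    intro x hx
    have hx' : x - D.a i ≠ 0 := sub_ne_zero.2 hx
    show (D.s : ℂ) * (D.γ i + (x - D.a i) * R x) = (x - D.a i) * ((D.s : ℂ) * D.B0 x)
    rw [hB0 x]
    field_simp
  have hRd : ∀ x ∈ closedBall q t, DifferentiableAt ℂ R x := by
    intro x hx
    rw [hR]
    apply DifferentiableAt.fun_sum
    intro l _
    apply DifferentiableAt.fun_sum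
    intro j hj
    by_cases hlj : l = i ∧ j = 0
    · simp only [if_pos hlj]
      exact differentiableAt_const _
    · simp only [if_neg hlj]
      have hne : x - D.p l j ≠ 0 := by
        intro h0
        apply hout l j (Finset.mem_range.1 hj) hlj
        rw [← sub_eq_zero.1 h0]
        exact hx
      exact (differentiableAt_const _).div ((differentiableAt_id).sub (differentiableAt_const _)) hne
  have hQd : ∀ x ∈ closedBall q t, DifferentiableAt ℂ Q x := by
    intro x hx
    rw [hQ]
    exact (differentiableAt_const _).mul ((differentiableAt_const _).add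
      (((differentiableAt_id).sub (differentiableAt_const _)).mul (hRd x hx)))
  have hQc : DiffContOnCl ℂ Q (ball q t) := by
    refine ⟨fun x hx => (hQd x (ball_subset_closedBall hx)).differentiableWithinAt, ?_⟩
    rw [closure_ball q ht.ne']
    exact fun x hx => (hQd x hx).continuousAt.continuousWithinAt
  have hbd : ∀ x ∈ frontier (ball q t), ‖Q x‖ ≤ 2 * t * e := by
    intro x hx
    rw [frontier_ball q ht.ne'] at hx
    have hx' : ‖x - q‖ = t := by
      rw [← dist_eq_norm]
      exact mem_sphere.1 hx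
    have hne : x ≠ D.a i := by
      intro h0
      rw [h0] at hx'
      linarith
    rw [hQB x hne, norm_mul]
    have h1 : ‖x - D.a i‖ ≤ 2 * t := by
      have : x - D.a i = (x - q) - (D.a i - q) := by ring
      rw [this]
      refine le_trans (norm_sub_le _ _) ?_
      linarith
    exact mul_le_mul h1 (hB x hx) (norm_nonneg _) (by linarith)
  have hfin : ‖Q (D.a i)‖ ≤ 2 * t * e :=
    Complex.norm_le_of_forall_mem_frontier_norm_le isBounded_ball hQc hbd (subset_closure haiB)
  have hQa : Q (D.a i) = (D.s : ℂ) * D.γ i := by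
    show (D.s : ℂ) * (D.γ i + (D.a i - D.a i) * R (D.a i)) = _
    rw [sub_self, zero_mul, add_zero]
  rw [hQa, norm_mul, hi, mul_one, Complex.norm_real, Real.norm_eq_abs, abs_of_pos hD.s0] at hfin
  exact hfin

theorem NZB (hNLI : NLI_stmt) (hPIN : WPL.PIN_stmt) (hCB1 : WPC.CB1_stmt) (hCB2 : WPC.CB2_stmt)
    (hTUL : V3.TUL_stmt) : NZB_stmt := by
  intro n C D hC hS hns
  by_contra hcon
  push Not at hcon
  obtain ⟨hNd, hNc⟩ := hNLI n C D hC hS
  obtain ⟨-, -, hPfin, -, -, -⟩ := hPIN n C D hC hS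
  obtain ⟨A, hA, hgood⟩ := hS.good
  have hC0 : 0 < C := by linarith
  -- the index
  have hidx : ∃ i : Fin 3, ∀ᶠ m in UF, ‖(D m).γ i‖ = 1 := by
    by_contra hno
    have h1 : ∀ i : Fin 3, ∀ᶠ m in UF, ¬ ‖(D m).γ i‖ = 1 := fun i =>
      (V3S.UF_not _).1 (not_exists.1 hno i)
    have h2 : ∀ᶠ m in UF, ∀ i : Fin 3, ¬ ‖(D m).γ i‖ = 1 := eventually_all.2 h1
    obtain ⟨m, hm⟩ := h2.exists
    obtain ⟨i, hi⟩ := (hgood m).gam1
    exact hm i hi
  obtain ⟨i, hi⟩ := hidx
  obtain ⟨q, hq, hqt⟩ := hTUL (hyperfilter ℕ) (fun m => (D m).a i) (1 / (4 * C))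
    (Eventually.of_forall fun m => (hgood m).pt i)
  have hqt' : Tendsto (fun m => (D m).a i) UF (𝓝 q) := hqt
  -- the radius
  have hfin : ((fun x : ℂ => ‖x - q‖) '' (Pin D ∩ ball 0 2)).Finite := (hPfin 2).image _
  have hinf : (Ioo (0 : ℝ) (1 / (16 * C))).Infinite := Ioo_infinite (by positivity)
  obtain ⟨t, ht, htn⟩ := hinf.exists_notMem_finite hfin
  have hC1 : 1 / (4 * C) ≤ 1 / 4 := by
    apply one_div_le_one_div_of_le <;> linarith
  have hC2 : 1 / (16 * C) ≤ 1 / 16 := by
    apply one_div_le_one_div_of_le <;> linarith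
  have hsp : sphere q t ⊆ (Pin D)ᶜ := by
    intro x hx hxP
    apply htn
    refine ⟨x, ⟨hxP, ?_⟩, ?_⟩
    · rw [mem_ball, dist_zero_right]
      have h1 : ‖x - q‖ = t := by
        rw [← dist_eq_norm]
        exact mem_sphere.1 hx
      have h2 : ‖x‖ ≤ ‖x - q‖ + ‖q‖ := by
        calc ‖x‖ = ‖(x - q) + q‖ := by ring_nf
          _ ≤ _ := norm_add_le _ _
      have h3 := ht.2
      linarith
    · show ‖x - q‖ = t
      rw [← dist_eq_norm]
      exact mem_sphere.1 hx
  have hunif := hNc (sphere q t) (isCompact_sphere q t) hsp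
  apply hns
  rw [Metric.tendsto_nhds]
  intro e he
  have he' : 0 < e / (4 * t) := by
    have := ht.1
    positivity
  have h1 := Metric.tendstoUniformlyOn_iff.1 hunif (e / (4 * t)) he'
  have h2 : ∀ᶠ m in UF, ‖(D m).a i - q‖ < t / 2 := by
    have h3 := Metric.tendsto_nhds.1 hqt' (t / 2) (by have := ht.1; linarith)
    filter_upwards [h3] with m hm
    rw [dist_eq_norm] at hm
    exact hm
  filter_upwards [h1, h2, hi] with m hm1 hm2 hm3
  have h4 : ∀ x ∈ sphere q t, ‖(D m).B x‖ ≤ e / (4 * t) := by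
    intro x hx
    have h5 := hm1 x hx
    rw [hcon x (hsp hx), dist_eq_norm, zero_sub, norm_neg] at h5
    exact h5.le
  have h6 := NZB_est hCB1 hCB2 n C (A m) hC (D m) (hgood m) i hm3 q hq t ht.1 ht.2 hm2 (e / (4 * t)) h4
  have h7 : 2 * t * (e / (4 * t)) = e / 2 := by
    have := ht.1
    field_simp
    norm_num
  rw [h7] at h6
  rw [Real.dist_eq, sub_zero, abs_of_pos (hgood m).s0]
  linarith

end WPN
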